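import Mathlib

/-!
AQ-6: finitely many nonarchimedean places of a field of positive characteristic control the
elements of a finitely generated subring.  By Noether normalization the generators are integral
over a polynomial ring over `ZMod p`, so that the degree place of the polynomial ring suffices.
The three facts on extensions of absolute values (AQ-1, AQ-3, AQ-4) are taken as hypotheses.
-/

set_option autoImplicit false

namespace Pool.Agent.Helper61.Apc

universe u

/-- AQ-1 -/
def FracExt (A K : Type*) [CommRing A] [IsDomain A] [Field K] [Algebra A K] : Prop :=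
  ∀ v : AbsoluteValue A ℝ, (∀ x y, v (x + y) ≤ max (v x) (v y)) →
    ∃ w : AbsoluteValue K ℝ, (∀ x y, w (x + y) ≤ max (w x) (w y)) ∧
      ∀ a, w (algebraMap A K a) = v a

/-- AQ-3 -/
def FinExt (F E : Type*) [Field F] [Field E] [Algebra F E] : Prop :=
  ∀ v : AbsoluteValue F ℝ, (∀ x y, v (x + y) ≤ max (v x) (v y)) →
    ∃ (m : ℕ) (w : Fin m → AbsoluteValue E ℝ), (∀ i x y, w i (x + y) ≤ max (w i x) (w i y)) ∧
      ∀ B : ℝ, 1 ≤ B → ∀ x : E, (∀ i, w i x ≤ B) →
        ∀ j, v ((minpoly F x).coeff j) ≤ B ^ (minpoly F x).natDegree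

/-- AQ-4 -/
def AllExt (F E : Type*) [Field F] [Field E] [Algebra F E] : Prop :=
  ∀ v : AbsoluteValue F ℝ, (∀ x y, v (x + y) ≤ max (v x) (v y)) →
    ∃ w : AbsoluteValue E ℝ, (∀ x y, w (x + y) ≤ max (w x) (w y)) ∧
      ∀ a, w (algebraMap F E a) = v a

/-- the absolute value `2 ^ totalDegree` -/
theorem exists_abv_totalDegree (σ F : Type*) [Field F] :
    ∃ v : AbsoluteValue (MvPolynomial σ F) ℝ, (∀ x y, v (x + y) ≤ max (v x) (v y)) ∧
      ∀ a, a ≠ 0 → v a = 2 ^ a.totalDegree := by
  classical
  have hult : ∀ x y : MvPolynomial σ F,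
      (if x + y = 0 then (0 : ℝ) else 2 ^ (x + y).totalDegree) ≤
        max (if x = 0 then 0 else 2 ^ x.totalDegree) (if y = 0 then 0 else 2 ^ y.totalDegree) := by
    intro x y
    by_cases hx : x = 0
    · subst hx
      simp
    by_cases hy : y = 0
    · subst hy
      simp
    by_cases hxy : x + y = 0
    · rw [if_pos hxy]
      rw [if_neg hx]
      exact le_max_of_le_left (by positivity)
    · rw [if_neg hxy, if_neg hx, if_neg hy]
      have h := MvPolynomial.totalDegree_add x y
      rcases le_max_iff.1 h with h | h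
      · exact le_max_of_le_left (pow_le_pow_right₀ one_le_two h)
      · exact le_max_of_le_right (pow_le_pow_right₀ one_le_two h)
  have hnn : ∀ x : MvPolynomial σ F, (0 : ℝ) ≤ (if x = 0 then 0 else 2 ^ x.totalDegree) := by
    intro x
    split_ifs
    · exact le_rfl
    · positivity
  refine ⟨{ toFun := fun a => if a = 0 then 0 else 2 ^ a.totalDegree
            map_mul' := ?_
            nonneg' := ?_
            eq_zero' := ?_
            add_le' := ?_ }, ?_, ?_⟩
  · intro x y
    by_cases hx : x = 0
    · subst hx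
      simp
    by_cases hy : y = 0
    · subst hy
      simp
    rw [if_neg hx, if_neg hy, if_neg (mul_ne_zero hx hy),
      MvPolynomial.totalDegree_mul_of_isDomain hx hy, pow_add]
  · exact hnn
  · intro x
    by_cases hx : x = 0
    · simp [hx]
    · simp [hx]
  · intro x y
    exact (hult x y).trans (max_le_add_of_nonneg (hnn x) (hnn y))
  · exact hult
  · intro a ha
    exact if_neg ha

/-- one absolute value with finitely many polynomials of bounded size -/
theorem exists_place_base {σ F L : Type*} [Finite σ] [Field F] [Finite F] [Field L]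
    [Algebra (MvPolynomial σ F) L] [IsFractionRing (MvPolynomial σ F) L]
    (h1 : FracExt (MvPolynomial σ F) L) :
    ∃ u : AbsoluteValue L ℝ, (∀ x y, u (x + y) ≤ max (u x) (u y)) ∧
      ∀ B : ℝ, {c : L | (∃ a : MvPolynomial σ F, c = algebraMap (MvPolynomial σ F) L a) ∧
        u c ≤ B}.Finite := by
  obtain ⟨v, hv, hvd⟩ := exists_abv_totalDegree σ F
  obtain ⟨u, hu, huv⟩ := h1 v hv
  refine ⟨u, hu, fun B => ?_⟩
  obtain ⟨n, hn⟩ := exists_nat_gt B
  have : Finite (MvPolynomial.restrictTotalDegree σ F n) :=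
    Module.finite_of_finite F
  have h2 : ((MvPolynomial.restrictTotalDegree σ F n : Set (MvPolynomial σ F))).Finite :=
    Set.toFinite _
  refine (h2.image (algebraMap (MvPolynomial σ F) L)).subset ?_
  rintro c ⟨⟨a, rfl⟩, hc⟩
  refine ⟨a, ?_, rfl⟩
  rw [SetLike.mem_coe, MvPolynomial.mem_restrictTotalDegree]
  by_cases ha : a = 0
  · subst ha
    simp
  rw [huv, hvd a ha] at hc
  by_contra hlt
  push Not at hlt
  have h3 : (2 : ℝ) ^ n ≤ 2 ^ a.totalDegree := pow_le_pow_right₀ one_le_two hlt.le
  have h4 : (n : ℝ) < 2 ^ n := by exact_mod_cast Nat.lt_two_pow_self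
  linarith

/-- the relative form: `K` is a field over the fraction field `L` of a polynomial ring `A`
over a finite field, and `T` is a finite set of elements integral over `A` -/
theorem exists_places_of_integral {σ F L K : Type*} [Finite σ] [Field F] [Finite F] [Field L]
    [Algebra (MvPolynomial σ F) L] [IsFractionRing (MvPolynomial σ F) L]
    [Field K] [Algebra (MvPolynomial σ F) K] [Algebra L K]
    [IsScalarTower (MvPolynomial σ F) L K] (T : Finset K)
    (hT : ∀ t ∈ T, IsIntegral (MvPolynomial σ F) t)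
    (h1 : FracExt (MvPolynomial σ F) L)
    (h3 : ∀ E : IntermediateField L K, FiniteDimensional L E → FinExt L E)
    (h4 : ∀ E : IntermediateField L K, AllExt E K) :
    ∃ (k : ℕ) (v : Fin k → AbsoluteValue K ℝ), (∀ i x y, v i (x + y) ≤ max (v i x) (v i y)) ∧
      ∀ B : ℝ, {x : K | x ∈ Subring.closure (T : Set K) ∧ ∀ i, v i x ≤ B}.Finite := by
  classical
  obtain ⟨u, hu, hfin⟩ := exists_place_base (σ := σ) (F := F) (L := L) h1
  let E : IntermediateField L K := IntermediateField.adjoin L (T : Set K)
  have hEfin : FiniteDimensional L E := by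
    apply IntermediateField.finiteDimensional_adjoin
    intro x hx
    exact (hT x (by simpa using hx)).tower_top
  obtain ⟨n, w, hw, hwB⟩ := h3 E hEfin u hu
  choose e he hee using fun (q : Fin n) => h4 E (w q) (hw q)
  refine ⟨n, e, he, fun B => ?_⟩
  set D := Module.finrank L E with hD
  set B' := max B 1 with hB'
  have hB1 : 1 ≤ B' := le_max_right _ _
  have hU := hfin (B' ^ D)
  refine (Polynomial.bUnion_roots_finite (algebraMap L K) D hU).subset ?_
  rintro x ⟨hx, hxB⟩
  -- `x` is integral over `A`
  have hxint : IsIntegral (MvPolynomial σ F) x := by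
    refine Subring.closure_induction (p := fun y _ => IsIntegral (MvPolynomial σ F) y)
      ?_ isIntegral_zero isIntegral_one ?_ ?_ ?_ hx
    · intro y hy
      exact hT y (by simpa using hy)
    · intro y z _ _ h1 h2
      exact h1.add h2
    · intro y _ h1
      exact h1.neg
    · intro y z _ _ h1 h2
      exact h1.mul h2
  -- `x` lies in `E`
  have hxE : x ∈ E := by
    refine Subring.closure_induction (p := fun y _ => y ∈ E)
      ?_ (zero_mem _) (one_mem _) ?_ ?_ ?_ hx
    · intro y hy
      exact IntermediateField.subset_adjoin L _ hy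
    · intro y z _ _ h1 h2
      exact add_mem h1 h2
    · intro y _ h1
      exact neg_mem h1
    · intro y z _ _ h1 h2
      exact mul_mem h1 h2
  let x' : E := ⟨x, hxE⟩
  have hmin : minpoly L x = minpoly L x' :=
    minpoly.algebraMap_eq (A := L) (B := E) (B' := K) (algebraMap E K).injective x'
  have hcoef : ∀ j, ∃ a : MvPolynomial σ F,
      (minpoly L x).coeff j = algebraMap (MvPolynomial σ F) L a := by
    intro j
    rw [minpoly.isIntegrallyClosed_eq_field_fractions' L hxint, Polynomial.coeff_map]
    exact ⟨_, rfl⟩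
  have hdeg : (minpoly L x).natDegree ≤ D := by
    rw [hmin]
    exact minpoly.natDegree_le x'
  have hne : minpoly L x ≠ 0 := by
    rw [hmin]
    exact minpoly.ne_zero (IsIntegral.of_finite L x')
  simp only [Set.mem_iUnion]
  refine ⟨minpoly L x, ⟨hdeg, fun j => ⟨hcoef j, ?_⟩⟩, ?_⟩
  · have h1 : ∀ l, w l x' ≤ B' := by
      intro l
      have h2 := hxB l
      have h3 := hee l x'
      have h4 : algebraMap E K x' = x := rfl
      rw [h4] at h3
      rw [← h3]
      exact h2.trans (le_max_left _ _)
    have h2 := hwB B' hB1 x' h1 j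
    rw [← hmin] at h2
    exact h2.trans (pow_le_pow_right₀ hB1 hdeg)
  · rw [Finset.mem_coe, Multiset.mem_toFinset, Polynomial.mem_roots', Polynomial.IsRoot.def,
      Polynomial.eval_map_algebraMap]
    exact ⟨Polynomial.map_ne_zero hne, minpoly.aeval L x⟩

theorem exists_places_charP_of {K : Type u} [Field K] (p : ℕ) [Fact p.Prime] [CharP K p]
    (h1 : ∀ (A L : Type) [CommRing A] [IsDomain A] [Field L] [Algebra A L] [IsFractionRing A L],
      FracExt A L)
    (h3 : ∀ (F : Type) (E : Type u) [Field F] [Field E] [Algebra F E] [FiniteDimensional F E],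
      FinExt F E)
    (h4 : ∀ (F E : Type u) [Field F] [Field E] [Algebra F E], AllExt F E)
    (T : Finset K) :
    ∃ (k : ℕ) (v : Fin k → AbsoluteValue K ℝ), (∀ i x y, v i (x + y) ≤ max (v i x) (v i y)) ∧
      ∀ B : ℝ, {x : K | x ∈ Subring.closure (T : Set K) ∧ ∀ i, v i x ≤ B}.Finite := by
  classical
  let _ : Algebra (ZMod p) K := ZMod.algebra K p
  let R0 := Algebra.adjoin (ZMod p) (T : Set K)
  have : Algebra.FiniteType (ZMod p) R0 :=
    (Subalgebra.fg_iff_finiteType R0).1 (Subalgebra.fg_adjoin_finset T)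
  obtain ⟨s, g, hg, hgf⟩ := exists_finite_inj_algHom_of_fg (ZMod p) R0
  let φ : MvPolynomial (Fin s) (ZMod p) →+* K := (R0.val.comp g : _ →ₐ[ZMod p] K).toRingHom
  have hφ : Function.Injective φ := by
    intro a b h
    exact hg (Subtype.val_injective h)
  let _ : Algebra (MvPolynomial (Fin s) (ZMod p)) K := φ.toAlgebra
  have : FaithfulSMul (MvPolynomial (Fin s) (ZMod p)) K :=
    (faithfulSMul_iff_algebraMap_injective _ _).2 hφ
  let _ : Algebra (FractionRing (MvPolynomial (Fin s) (ZMod p))) K :=
    FractionRing.liftAlgebra _ _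
  refine exists_places_of_integral (σ := Fin s) (F := ZMod p)
    (L := FractionRing (MvPolynomial (Fin s) (ZMod p))) T ?_ (h1 _ _) (fun E _ => h3 _ _)
    (fun E => h4 _ _)
  intro t ht
  have ht' : t ∈ R0 := Algebra.subset_adjoin (by simpa using ht)
  have h1 : g.toRingHom.IsIntegralElem ⟨t, ht'⟩ :=
    RingHom.IsIntegral.of_finite hgf ⟨t, ht'⟩
  obtain ⟨q, hq, hq0⟩ := h1
  refine ⟨q, hq, ?_⟩
  have h2 := congrArg (R0.val : R0 → K) hq0
  have h3 : R0.val (Polynomial.eval₂ g.toRingHom ⟨t, ht'⟩ q)
      = Polynomial.eval₂ φ t q := by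
    exact Polynomial.hom_eval₂ q g.toRingHom R0.val.toRingHom ⟨t, ht'⟩
  rw [h3, map_zero] at h2
  exact h2

end Pool.Agent.Helper61.Apc
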